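import Pool.Agent.U663.SD.KTrip
import Pool.Agent.N906.QP.All

/-!
# The anatomy of the points with small radical over a number field

`K` is a number field of degree `d`, `0 < κ < 1` and `c` real. The points of the line `a + b + c = 0` with
`abc ≠ 0` are the points `P = (x : 1 : -1 - x)`, `x ∈ K`, `x ≠ 0, -1`. The number of those with
`H(P) ≤ B` and `rad(P) ≤ (3 - κ) h(P) + c` is `B ^ (d (2 - κ) + o(1))`. We show that all but a proportion
`exp (- η √(log B / log log B))` of them look the same: for each of the three coordinates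

* the primes dividing it contribute `(1 - κ / 3 + o(1)) h(P)` to the radical, and its norm, without the
  common factor of the coordinates, is `H(P) ^ (d (1 + o(1)))`;
* the number of the primes whose square divides it is `(1 + o(1)) √((2 κ / 3) d log B / log log B)`, and
  the product of the norms of these primes is `B ^ o(1)`.
-/

set_option autoImplicit false

open NumberField IsDedekindDomain Filter Topology

namespace Pool.Agent.Results.MP_a793bb_nt.AnatomyOfPoints

section defs

variable {K : Type} [Field K] [NumberField K]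

/-- the height `h(P)` of the point `P` with coordinates `y` -/
noncomputable def height (y : Fin 3 → K) : ℝ :=
  (∑ w : InfinitePlace K, (w.mult : ℝ) * Real.log (max (w (y 0)) (max (w (y 1)) (w (y 2)))) +
    ∑ᶠ v : HeightOneSpectrum (𝓞 K), Real.log
      (max (FinitePlace.mk v (y 0)) (max (FinitePlace.mk v (y 1)) (FinitePlace.mk v (y 2))))) /
    (Module.finrank ℚ K : ℝ)

/-- the radical of the point with coordinates `y`: the sum of `log N(v) / d` over the primes `v` at
which the valuations of the coordinates are not all equal -/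
noncomputable def rad (y : Fin 3 → K) : ℝ :=
  (∑ᶠ (v : HeightOneSpectrum (𝓞 K)) (_ : ¬ (FinitePlace.mk v (y 0) = FinitePlace.mk v (y 1) ∧
        FinitePlace.mk v (y 1) = FinitePlace.mk v (y 2))),
    Real.log (Ideal.absNorm v.asIdeal : ℝ)) / (Module.finrank ℚ K : ℝ)

/-- the coordinates of the point `(x : 1 : -1 - x)` of the line `a + b + c = 0` -/
def point (x : K) : Fin 3 → K := ![x, 1, -1 - x]

/-- the maximum of the absolute values of the coordinates at the prime `v` -/
noncomputable def top (v : HeightOneSpectrum (𝓞 K)) (y : Fin 3 → K) : ℝ :=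
  max (FinitePlace.mk v (y 0)) (max (FinitePlace.mk v (y 1)) (FinitePlace.mk v (y 2)))

/-- the sum of `log N(v) / d` over the primes `v` which divide the coordinate `i`, after division by
the common factor of the coordinates: those with `|y i|_v < max_j |y j|_v` -/
noncomputable def radAt (i : Fin 3) (y : Fin 3 → K) : ℝ :=
  (∑ᶠ (v : HeightOneSpectrum (𝓞 K)) (_ : FinitePlace.mk v (y i) < top v y),
    Real.log (Ideal.absNorm v.asIdeal : ℝ)) / (Module.finrank ℚ K : ℝ)

/-- `1 / d` times the logarithm of the norm of the coordinate `i`, after division by the common factor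
of the coordinates: the sum of `log (max_j |y j|_v / |y i|_v) / d` over the primes `v` -/
noncomputable def normAt (i : Fin 3) (y : Fin 3 → K) : ℝ :=
  (∑ᶠ v : HeightOneSpectrum (𝓞 K), Real.log (top v y / FinitePlace.mk v (y i))) /
    (Module.finrank ℚ K : ℝ)

/-- the primes `v` whose square divides the coordinate `i`, after division by the common factor of the
coordinates: those with `N(v) ^ 2 |y i|_v ≤ max_j |y j|_v` -/
def squared (i : Fin 3) (y : Fin 3 → K) : Set (HeightOneSpectrum (𝓞 K)) :=
  {v | FinitePlace.mk v (y i) * (Ideal.absNorm v.asIdeal : ℝ) ^ 2 ≤ top v y}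

variable (K) in
/-- the points `P = (x : 1 : -1 - x)` with nonzero coordinates, `exp h(P) ≤ B` and
`rad(P) ≤ (3 - κ) h(P) + c` -/
def Small (κ c B : ℝ) : Set K :=
  {x | x ≠ 0 ∧ x ≠ -1 ∧ Real.exp (height (point x)) ≤ B ∧
    rad (point x) ≤ (3 - κ) * height (point x) + c}

/-- the coordinate `i` of the point with coordinates `y` is typical, up to `ε` -/
structure Typical (κ ε B : ℝ) (y : Fin 3 → K) (i : Fin 3) : Prop where
  /-- the radical of the coordinate is `(1 - κ / 3 + O(ε)) h(P)` -/
  radical : |radAt i y - (1 - κ / 3) * height y| ≤ ε * height y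
  /-- its norm is at least `H(P) ^ (d (1 - ε))` -/
  norm : (1 - ε) * height y ≤ normAt i y
  /-- the number of the primes whose square divides the coordinate -/
  number : |((squared i y).ncard : ℝ) -
    √(2 * (κ / 3) * (Module.finrank ℚ K : ℝ) * Real.log B / Real.log (Real.log B))| ≤
      ε * √(Real.log B / Real.log (Real.log B))
  /-- the product of the norms of these primes is at most `B ^ (d ε)` -/
  product : (∑ᶠ (v : HeightOneSpectrum (𝓞 K)) (_ : v ∈ squared i y),
    Real.log (Ideal.absNorm v.asIdeal : ℝ)) / (Module.finrank ℚ K : ℝ) ≤ ε * Real.log B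

variable (K) in
/-- the points of `Small κ c B` with a coordinate which is not typical -/
def Atypical (κ c ε B : ℝ) : Set K :=
  {x | x ∈ Small K κ c B ∧ ∃ i, ¬ Typical κ ε B (point x) i}

end defs

open Pool.Agent.N906.KG Pool.Agent.U663.SD Pool.Agent.H691R3 Pool.Agent.W223.AK
open Pool.Agent.N575.QP

variable {K : Type} [Field K] [NumberField K]

theorem deg_pos : (0 : ℝ) < Module.finrank ℚ K := by
  exact_mod_cast (Module.finrank_pos (R := ℚ) (M := K))

theorem deg_one : (1 : ℝ) ≤ Module.finrank ℚ K := by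
  exact_mod_cast Nat.one_le_iff_ne_zero.2 (Module.finrank_pos (R := ℚ) (M := K)).ne'

theorem height_bounds (x : K) : hr (aff x) ≤ (Module.finrank ℚ K : ℝ) * height (point x) ∧
    (Module.finrank ℚ K : ℝ) * height (point x) ≤ hr (aff x) + lossK K := by
  have h := H3_bounds (K := K) (x := cd x) (by show (1 : K) ≠ 0; exact one_ne_zero)
    (by show x + 1 + (-1 - x) = 0; ring)
  have e1 : (Module.finrank ℚ K : ℝ) * height (point x) = H3 (cd x) := by
    unfold height
    rw [mul_div_cancel₀ _ deg_pos.ne']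
    rfl
  have e2 : cd x 0 / cd x 1 = x := by
    show x / 1 = x
    rw [div_one]
  rw [e2] at h
  rw [e1]
  exact h

theorem loss_nonneg' : 0 ≤ lossK K := by
  have := height_bounds (1 : K)
  linarith [this.1, this.2]

theorem top_eq (v : Pr K) (x : K) : top v (point x) = mx v x := max_cd v x

theorem rad_eq {x : K} (h0 : x ≠ 0) (h1 : x ≠ -1) {P : Fin 3 → Idl K}
    (hP : Pool.Agent.N906.KG.IsP ∅ (aK K) x P) :
    (Module.finrank ℚ K : ℝ) * rad (point x) = tr P := by
  rw [← rad_all h0 h1 hP]
  unfold rad R3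
  rw [mul_div_cancel₀ _ deg_pos.ne']
  refine finsum_congr fun v => ?_
  refine finsum_congr_Prop ?_ fun _ => rfl
  simp
  rfl

theorem radAt_eq {x : K} (h0 : x ≠ 0) (h1 : x ≠ -1) {P : Fin 3 → Idl K}
    (hP : Pool.Agent.N906.KG.IsP ∅ (aK K) x P) (i : Fin 3) :
    (Module.finrank ℚ K : ℝ) * radAt i (point x) = rl (P i) := by
  rw [← rad_at h0 h1 hP i]
  unfold radAt
  rw [mul_div_cancel₀ _ deg_pos.ne']
  refine finsum_congr fun v => ?_
  rw [top_eq]
  rfl

theorem normAt_eq {x : K} (h0 : x ≠ 0) (h1 : x ≠ -1) {P : Fin 3 → Idl K}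
    (hP : Pool.Agent.N906.KG.IsP ∅ (aK K) x P) (i : Fin 3) :
    (Module.finrank ℚ K : ℝ) * normAt i (point x) = len (P i) := by
  rw [← full_at h0 h1 hP i]
  unfold normAt
  rw [mul_div_cancel₀ _ deg_pos.ne']
  refine finsum_congr fun v => ?_
  rw [top_eq]
  rfl

theorem squared_eq {x : K} (h0 : x ≠ 0) (h1 : x ≠ -1) {P : Fin 3 → Idl K}
    (hP : Pool.Agent.N906.KG.IsP ∅ (aK K) x P) (i : Fin 3) :
    squared i (point x) = ((sqf (P i)).support : Set (Pr K)) := by
  rw [← sq_set h0 h1 hP i]
  unfold squared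
  ext v
  rw [Set.mem_ofPred_eq, top_eq]
  rfl

/-- every finite set of points of bounded height is bounded -/
theorem small_finite (κ c B : ℝ) : (Small K κ c B).Finite := by
  classical
  obtain ⟨C, hC, h⟩ := cellq_all K 3 (aK K) ∅ al_aK gd_aK
  obtain ⟨X, hX⟩ : ∃ X : ℝ, X = max 0 ((Module.finrank ℚ K : ℝ) * Real.log B) := ⟨_, rfl⟩
  by_contra hinf
  obtain ⟨F, hF1, hF2⟩ := Set.Infinite.exists_subset_card_eq hinf
    (⌊C * (Real.exp (2 * X - tl (0 : Fin 3 → Idl K) - ∑ v ∈ Spl (∅ : Finset (Pr K)), (0 : ℝ)) + 1)⌋₊ + 1)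
  have h3 := h X 0 (fun _ => 0) (fun _ => 0) F (by rw [hX]; exact le_max_left _ _)
    (fun _ _ => le_rfl) (fun _ _ _ => rfl) (by
      intro x hx
      obtain ⟨g0, g1, g2, -⟩ := hF1 (Finset.mem_coe.2 hx)
      have hOf := of_aK g0 g1
      have k1 := (height_bounds x).1
      have k2 : 0 < B := (Real.exp_pos _).trans_le g2
      have k3 : height (point x) ≤ Real.log B := (Real.le_log_iff_exp_le k2).2 g2
      refine ⟨hOf, ?_, ?_, ?_⟩
      · rw [hX]
        refine le_max_of_le_right (k1.trans ?_)
        exact mul_le_mul_of_nonneg_left k3 deg_pos.le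
      · intro v _
        by_cases hv : v ∈ Spl (∅ : Finset (Pr K))
        · obtain ⟨-, h5⟩ := (basq_all K) 3 (aK K) (by norm_num) al_aK
          obtain ⟨C', -, h6⟩ := h5 ∅ gd_aK
          have := ((h6 x hOf).2.2.1 v hv).1 0
          linarith
        · exact absurd (by assumption) hv
      · obtain ⟨-, h5⟩ := (basq_all K) 3 (aK K) (by norm_num) al_aK
        obtain ⟨C', -, h6⟩ := h5 ∅ gd_aK
        obtain ⟨P, hP⟩ := (h6 x hOf).1
        exact ⟨P, hP, fun l v => Nat.zero_le _⟩)
  rw [hF2] at h3
  push_cast at h3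
  linarith [Nat.lt_floor_add_one (C * (Real.exp (2 * X - tl (0 : Fin 3 → Idl K) -
    ∑ v ∈ Spl (∅ : Finset (Pr K)), (0 : ℝ)) + 1))]

/-- the upper bound for the number of the atypical points -/
theorem atypical_le {κ c ε : ℝ} (h0 : 0 < κ) (h1 : κ < 1) (hε : 0 < ε) :
    ∃ g : ℝ, 0 < g ∧ ∃ X₀ : ℝ, ∀ X : ℝ, X₀ ≤ X →
      ((Atypical K κ c ε (Real.exp (X / Module.finrank ℚ K))).ncard : ℝ) ≤
      Real.exp ((2 - κ) * X + (3 * √(κ / 3) - g) * √(8 * X / Real.log X)) := by
  classical
  obtain ⟨d, hd⟩ : ∃ d : ℝ, d = Module.finrank ℚ K := ⟨_, rfl⟩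
  have hd0 : 0 < d := by rw [hd]; exact deg_pos
  have hd1 : 1 ≤ d := by rw [hd]; exact deg_one
  have hL := lossK_nonneg K
  obtain ⟨C₀, hC₀⟩ : ∃ C₀ : ℝ, C₀ = 3 * lossK K + d * |c| + 1 := ⟨_, rfl⟩
  have hC0 : 0 ≤ C₀ := by rw [hC₀]; positivity
  have hdc : 0 ≤ d * |c| := by positivity
  obtain ⟨g, hg, X₀, hX₀, h⟩ := few (K := K) (q := 3) (κ₁ := 1) (by norm_num) le_rfl (basq_all K)
    (cellq_all K) (gupk_all K) (Pool.Agent.N654.QP.bigq3 K) al_aK gd_aK (κ := κ)
    (ε := ε / (2 * d)) (C₀ := C₀) h0 h1 (by positivity) hC0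
  have hmt := main_term hd1 (b := κ / 3) (ε := ε / 2) (by positivity) (by positivity)
  obtain ⟨L₀, hL₀⟩ := eventually_atTop.1 (hmt.and (eventually_ge_atTop (3 : ℝ)))
  refine ⟨g, hg, max X₀ (d * L₀), fun X hX => ?_⟩
  rw [← hd]
  obtain ⟨L, hLX⟩ : ∃ L : ℝ, L = X / d := ⟨_, rfl⟩
  have hXL : X = d * L := by rw [hLX]; field_simp
  have hLL : L₀ ≤ L := by
    have : d * L₀ ≤ d * L := by rw [← hXL]; exact (le_max_right _ _).trans hX
    exact le_of_mul_le_mul_left this hd0
  obtain ⟨k1, k2⟩ := hL₀ L hLL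
  rw [← hXL] at k1
  rw [← hLX]
  have hX0 : 0 < X := by rw [hXL]; positivity
  have hfin : (Atypical K κ c ε (Real.exp L)).Finite := (small_finite κ c _).subset fun x hx => hx.1
  have h5 := h X hfin.toFinset ((le_max_left _ _).trans hX) ?_
  · rw [← Set.ncard_eq_toFinset_card _ hfin] at h5
    push_cast at h5
    exact h5
  · intro x hx
    rw [Set.Finite.mem_toFinset] at hx
    obtain ⟨⟨g0, g1, g2, g3⟩, i, hi⟩ := hx
    have hOf := of_aK g0 g1
    obtain ⟨P, hP⟩ : ∃ P, Pool.Agent.N906.KG.IsP ∅ (aK K) x P := by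
      obtain ⟨-, h5⟩ := (basq_all K) 3 (aK K) (by norm_num) al_aK
      obtain ⟨C', -, h6⟩ := h5 ∅ gd_aK
      exact (h6 x hOf).1
    obtain ⟨j1, j2⟩ := height_bounds x
    rw [← hd] at j1 j2
    obtain ⟨H, hH⟩ : ∃ H : ℝ, H = height (point x) := ⟨_, rfl⟩
    rw [← hH] at j1 j2 g2 g3
    have g2' : H ≤ L := Real.exp_le_exp.1 g2
    have hr0 : 0 ≤ hr (aff x) := hr_aff_nonneg x
    refine ⟨hOf, ?_, P, hP, ?_, ?_⟩
    · rw [hXL]
      exact j1.trans (mul_le_mul_of_nonneg_left g2' hd0.le)
    · rw [← rad_eq g0 g1 hP, ← hd]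
      have k3 := mul_le_mul_of_nonneg_left g3 hd0.le
      have k4 : d * c ≤ d * |c| := mul_le_mul_of_nonneg_left (le_abs_self c) hd0.le
      have k5 : (3 - κ) * (d * H) ≤ (3 - κ) * (hr (aff x) + lossK K) :=
        mul_le_mul_of_nonneg_left j2 (by linarith)
      have k6 : κ * lossK K ≥ 0 := by positivity
      push_cast
      rw [hC₀]
      nlinarith
    · -- a coordinate is not typical
      refine ⟨i, ?_⟩
      push_cast
      by_contra hno
      push Not at hno
      obtain ⟨n1, n2, -, n4, n5⟩ := hno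
      apply hi
      have hεd : ε / (2 * d) ≤ ε / 2 := by
        rw [div_le_div_iff₀ (by positivity) (by norm_num)]
        nlinarith
      have hεh : ε / (2 * d) * hr (aff x) ≤ ε / 2 * hr (aff x) := mul_le_mul_of_nonneg_right hεd hr0
      have hb1 : 0 ≤ κ / 3 := by positivity
      have hb2 : κ / 3 ≤ 1 := by linarith
      have hsq := squared_eq g0 g1 hP i
      refine ⟨?_, ?_, ?_, ?_⟩
      · rw [← hH]
        have e1 := radAt_eq g0 g1 hP i
        rw [← hd] at e1
        have e2 : d * |radAt i (point x) - (1 - κ / 3) * H| =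
            |rl (P i) - (1 - κ / 3) * (d * H)| := by
          rw [← abs_of_pos hd0, ← abs_mul, abs_of_pos hd0, mul_sub, e1]
          congr 2
          ring
        have e3 : |rl (P i) - (1 - κ / 3) * (d * H)| ≤
            |rl (P i) - (1 - κ / 3) * hr (aff x)| + lossK K := by
          have e4 : rl (P i) - (1 - κ / 3) * (d * H) = (rl (P i) - (1 - κ / 3) * hr (aff x)) +
              -((1 - κ / 3) * (d * H - hr (aff x))) := by ring
          rw [e4]
          refine (abs_add_le _ _).trans ?_
          have e7 : 0 ≤ (1 - κ / 3) * (d * H - hr (aff x)) :=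
            mul_nonneg (by linarith) (by linarith)
          rw [abs_neg, abs_of_nonneg e7]
          have : (1 - κ / 3) * (d * H - hr (aff x)) ≤ 1 * lossK K :=
            mul_le_mul (by linarith) (by linarith) (by linarith) (by norm_num)
          linarith
        refine le_of_mul_le_mul_left ?_ hd0
        rw [e2]
        have e5 : ε * hr (aff x) ≤ ε * (d * H) := mul_le_mul_of_nonneg_left j1 hε.le
        have e6 : 0 ≤ ε * hr (aff x) := by positivity
        rw [hC₀] at n1
        linarith
      · rw [← hH]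
        have e1 := normAt_eq g0 g1 hP i
        rw [← hd] at e1
        refine le_of_mul_le_mul_left ?_ hd0
        rw [e1]
        have e5 : ε * hr (aff x) ≤ ε * (d * H) := mul_le_mul_of_nonneg_left j1 hε.le
        have e6 : 0 ≤ ε * hr (aff x) := by positivity
        rw [hC₀] at n2
        linarith
      · rw [hsq, Set.ncard_coe_finset, Real.log_exp, ← hd]
        have e1 : √(X / Real.log X) ≤ d * √(L / Real.log L) := by
          have hlL : 0 < Real.log L := Real.log_pos (by linarith)
          have hlX : Real.log L ≤ Real.log X := by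
            apply Real.log_le_log (by linarith)
            rw [hXL]
            nlinarith
          rw [← Real.sqrt_sq hd0.le, ← Real.sqrt_mul (by positivity)]
          apply Real.sqrt_le_sqrt
          calc X / Real.log X ≤ X / Real.log L :=
                div_le_div_of_nonneg_left hX0.le hlL hlX
            _ = d * (L / Real.log L) := by rw [hXL]; ring
            _ ≤ d ^ 2 * (L / Real.log L) := by
                apply mul_le_mul_of_nonneg_right _ (by positivity)
                nlinarith
        have e2 : ε / (2 * d) * √(X / Real.log X) ≤ ε / 2 * √(L / Real.log L) := by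
          calc ε / (2 * d) * √(X / Real.log X) ≤ ε / (2 * d) * (d * √(L / Real.log L)) :=
                mul_le_mul_of_nonneg_left e1 (by positivity)
            _ = ε / 2 * √(L / Real.log L) := by field_simp
        have e3 := abs_sub_le (((sqf (P i)).support.card : ℝ))
          √(2 * (κ / 3) * X / Real.log X) √(2 * (κ / 3) * d * L / Real.log L)
        linarith
      · rw [hsq, finsum_mem_coe_finset, Real.log_exp, ← hd, div_le_iff₀ hd0]
        have e1 : ∑ v ∈ (sqf (P i)).support, Real.log (Ideal.absNorm v.asIdeal : ℝ) =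
            rl (sqf (P i)) := rfl
        rw [e1]
        have e2 : ε / (2 * d) * X = ε / 2 * L := by
          rw [hXL]
          field_simp
        rw [e2] at n5
        have e3 : 0 ≤ ε * L := by positivity
        have e4 : ε * L ≤ ε * L * d := by nlinarith
        linarith

/-- the lower bound for the number of all points with a small radical -/
theorem small_ge {κ c ε : ℝ} (h0 : 0 < κ) (h1 : κ < 1) (hε : 0 < ε) (hε1 : ε < 1) :
    ∃ X₀ : ℝ, ∀ X : ℝ, X₀ ≤ X →
      Real.exp ((2 - κ) * X + (1 - ε) * (3 * √(κ / 3) * √(8 * X / Real.log X))) ≤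
        ((Small K κ c (Real.exp ((X + lossK K) / Module.finrank ℚ K))).ncard : ℝ) := by
  classical
  obtain ⟨d, hd⟩ : ∃ d : ℝ, d = Module.finrank ℚ K := ⟨_, rfl⟩
  have hd0 : 0 < d := by rw [hd]; exact deg_pos
  have hA : ∑ _l : Fin 3, κ / 3 = κ := by
    rw [Finset.sum_const, Finset.card_univ, Fintype.card_fin, nsmul_eq_mul]
    push_cast
    ring
  obtain ⟨X₀, -, h⟩ := (loj_all K) 3 (aK K) ∅ (fun _ => κ / 3) ε (d * |c|) (by norm_num) al_aK gd_aK
    (fun _ => by positivity) (by rw [hA]; exact h0) (by rw [hA]; exact h1) hε hε1 (by positivity)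
  refine ⟨X₀, fun X hX => ?_⟩
  obtain ⟨F, hF, hc⟩ := h X hX
  rw [hA, Finset.sum_const, Finset.card_univ, Fintype.card_fin, nsmul_eq_mul] at hc
  have e1 : √(8 * (κ / 3) * X / Real.log X) = √(κ / 3) * √(8 * X / Real.log X) := by
    rw [← Real.sqrt_mul (by positivity)]
    congr 1
    ring
  rw [e1] at hc
  have e2 : (2 - κ) * X + (1 - ε) * (3 * √(κ / 3) * √(8 * X / Real.log X)) =
      (2 - κ) * X + (1 - ε) * (((3 : ℕ) : ℝ) * (√(κ / 3) * √(8 * X / Real.log X))) := by
    push_cast
    ring
  rw [e2]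
  refine hc.trans ?_
  rw [← hd]
  have hsub : (F : Set K) ⊆ Small K κ c (Real.exp ((X + lossK K) / d)) := by
    intro x hx
    obtain ⟨g1, g2, -, P, hP, g3⟩ := hF x (Finset.mem_coe.1 hx)
    have x0 : x ≠ 0 := by
      intro h
      apply g1 0
      rw [h]
      show (0 : K) * 1 - 0 = 0
      ring
    have x1 : x ≠ -1 := by
      intro h
      apply g1 2
      rw [h]
      show (-1 : K) * 1 - (-1) = 0
      ring
    obtain ⟨j1, j2⟩ := height_bounds x
    rw [← hd] at j1 j2
    refine ⟨x0, x1, ?_, ?_⟩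
    · apply Real.exp_le_exp.2
      rw [le_div_iff₀ hd0]
      linarith
    · refine le_of_mul_le_mul_left ?_ hd0
      have e3 := rad_eq x0 x1 hP
      rw [← hd] at e3
      rw [e3]
      refine (tr_le_rl P).trans ?_
      have e4 : ∑ l, (rl (P l) + d * |c|) ≤ ∑ _l : Fin 3, (1 - κ / 3) * hr (aff x) :=
        Finset.sum_le_sum fun l _ => g3 l
      rw [Finset.sum_add_distrib, Finset.sum_const, Finset.sum_const, Finset.card_univ,
        Fintype.card_fin, nsmul_eq_mul, nsmul_eq_mul] at e4
      push_cast at e4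
      have e5 : -(d * |c|) ≤ d * c := by
        have := mul_le_mul_of_nonneg_left (neg_abs_le c) hd0.le
        linarith
      have e6 : 0 ≤ d * |c| := by positivity
      have e7 : (3 - κ) * hr (aff x) ≤ (3 - κ) * (d * height (point x)) :=
        mul_le_mul_of_nonneg_left j1 (by linarith)
      linarith
  have h3 := Set.ncard_le_ncard hsub (small_finite κ c _)
  rw [Set.ncard_coe_finset] at h3
  exact_mod_cast h3

/-- **The anatomy of the points with small radical.** Let `K` be a number field of degree `d`,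
`0 < κ < 1`, `c` real and `ε > 0`. There is `η > 0` such that for all large `B` at most
`exp (- η √(log B / log log B)) M(B)` of the `M(B)` points `P = (x : 1 : -1 - x)` over `K` with nonzero
coordinates, `H(P) ≤ B` and `rad(P) ≤ (3 - κ) h(P) + c` have a coordinate which is not typical up to
`ε`; `M(B)` is finite. -/
theorem result : ∀ (K : Type) [Field K] [NumberField K] (κ c ε : ℝ), 0 < κ → κ < 1 → 0 < ε →
    (∀ B : ℝ, (Small K κ c B).Finite) ∧
    ∃ η : ℝ, 0 < η ∧ ∀ᶠ B : ℝ in atTop, ((Atypical K κ c ε B).ncard : ℝ) ≤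
      Real.exp (-(η * √(Real.log B / Real.log (Real.log B)))) * ((Small K κ c B).ncard : ℝ) := by
  intro K _ _ κ c ε h0 h1 hε
  refine ⟨small_finite κ c, ?_⟩
  obtain ⟨d, hd⟩ : ∃ d : ℝ, d = Module.finrank ℚ K := ⟨_, rfl⟩
  have hd0 : 0 < d := by rw [hd]; exact deg_pos
  have hd1 : 1 ≤ d := by rw [hd]; exact deg_one
  obtain ⟨g, hg, X₁, hX₁⟩ := atypical_le (K := K) (c := c) h0 h1 hε
  have hs : 0 < 3 * √(κ / 3) := by positivity
  obtain ⟨η, hη, hev⟩ := ratio (κ := κ) (s := 3 * √(κ / 3))
    (g := min g (3 * √(κ / 3))) (L₀ := lossK K) (by linarith) (lt_min hg hs)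
    (min_le_right _ _) (lossK_nonneg K)
    (M := fun X => ((Atypical K κ c ε (Real.exp (X / Module.finrank ℚ K))).ncard : ℝ))
    (N := fun X => ((Small K κ c (Real.exp (X / Module.finrank ℚ K))).ncard : ℝ))
    ⟨X₁, fun X hX => by
      refine (hX₁ X hX).trans ?_
      have k1 : (3 * √(κ / 3) - g) * √(8 * X / Real.log X) ≤
          (3 * √(κ / 3) - min g (3 * √(κ / 3))) * √(8 * X / Real.log X) :=
        mul_le_mul_of_nonneg_right (by linarith [min_le_left g (3 * √(κ / 3))])
          (Real.sqrt_nonneg _)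
      have k2 := Real.exp_le_exp.2 (add_le_add_right k1 ((2 - κ) * X))
      linarith⟩
    (fun ε' hε' hε1 => small_ge h0 h1 hε' hε1)
  refine ⟨η, hη, ?_⟩
  rw [← hd] at hev
  have ht : Tendsto (fun B : ℝ => d * Real.log B) atTop atTop :=
    Real.tendsto_log_atTop.const_mul_atTop hd0
  filter_upwards [ht.eventually hev, eventually_gt_atTop (0 : ℝ),
    Real.tendsto_log_atTop.eventually (ratio_mono hd1)] with B hB hB0 hm
  rw [mul_div_cancel_left₀ _ hd0.ne', Real.exp_log hB0] at hB
  refine hB.trans ?_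
  apply mul_le_mul_of_nonneg_right _ (Nat.cast_nonneg _)
  apply Real.exp_le_exp.2
  have := mul_le_mul_of_nonneg_left hm hη.le
  linarith

end Pool.Agent.Results.MP_a793bb_nt.AnatomyOfPoints
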