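import Pool.Agent.U221.AW.Main

/-!
# The abc conjecture over a number field is decided far away from any given algebraic numbers

Let `K` be a number field of degree `d`, let `S` be a finite set of primes of `K`, let `G` be any nonzero polynomial over
`K` (its zeros are arbitrary algebraic numbers), let `η > 0` and `k ≥ 0`. Let `φ(x) = ((1 - x²) / (1 + x²))²`; it
corresponds to the parametrisation of the Pythagorean triples, `(1 - x²)² + (2 x)² = (1 + x²)²`.

**Theorem.** The abc conjecture over `K` (for all points `P = (a : b : c)` with `a + b + c = 0`, `abc ≠ 0`) is equivalent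
to the abc conjecture for the points `P` with coordinate `x = - a / c` such that
`|G(x)|_v ≥ exp (- η h(P))` and `|x|_v ≤ exp (η h(P))` for all infinite places `v` and all `v ∈ S`, and such that `x` is in
the image of the `k`-th iterate of `φ` (for `k ≥ 1` the point is a triple of squares, the squares of a Pythagorean triple).
For every `η' > 0` there are at most `C T ^ (2 d / 4 ^ k + η')` such points of height `≤ log T`.

So one may assume that `x` is not close to any of the given algebraic numbers at any of the given places, with the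
exponent `η` where the theorem of Roth has the exponent `2 + ε`. For `G = x (1 - x)` this says that it suffices to
consider the nearly balanced triples: `|a|_v, |b|_v, |c|_v` differ at most by a factor `exp (2 η h(P))` for the infinite
places and for `v ∈ S`.
For all the fields of bounded degree together Mochizuki proved that points at a bounded distance from the cusps suffice,
by passing to covers of higher genus over extensions of `K`. Over one fixed field a rational map which does not increase
the radical too much maps cusps to cusps, so that points cannot be moved away from the cusps by a bounded distance.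

Proof (`Pool/Agent/U221/AW`). `φ` has degree `4` and six points over `0`, `1`, `∞`, among them `0`, `1`, `∞`, so the
inequality at `φ(x)` implies the inequality at `x` (`Pool/Agent/U221/TK`). All the ramification indices of `φ` are at
most `2` (it is a Galois cover with the group `(ℤ/2)²`); so those of the `j`-th iterate, of degree `4 ^ j`, are at most
`2 ^ j`. If `φ^j (x)` is close to `z` at `v`, then `x` is close to one of the algebraic numbers in the fibre over `z`, and
by the theorem of Roth for one place (with algebraic targets, from the library `R405.PP`)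
`log (1 / |φ^j (x) - z|_v) ≤ 2 ^ j (3 h(x) + O(1)) ≤ η h(φ^j (x))` for large `j`.
-/

set_option autoImplicit false

open NumberField IsDedekindDomain Polynomial

namespace Pool.Agent.Results.MP_a793bb_nt.AwayFromAlgebraicNumbers

variable {K : Type} [Field K] [NumberField K]

/-- the height `h(P)` of the point with coordinates `P` -/
noncomputable def height (P : Fin 3 → K) : ℝ :=
  (∑ w : InfinitePlace K, (w.mult : ℝ) * Real.log (max (w (P 0)) (max (w (P 1)) (w (P 2)))) +
    ∑ᶠ v : HeightOneSpectrum (𝓞 K), Real.log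
      (max (FinitePlace.mk v (P 0)) (max (FinitePlace.mk v (P 1)) (FinitePlace.mk v (P 2))))) /
    (Module.finrank ℚ K : ℝ)

/-- the radical `rad(P)`: the sum of `log N(v) / d` over the primes at which the valuations of the coordinates are
not all equal -/
noncomputable def rad (P : Fin 3 → K) : ℝ :=
  (∑ᶠ (v : HeightOneSpectrum (𝓞 K)) (_ : ¬ (FinitePlace.mk v (P 0) = FinitePlace.mk v (P 1) ∧
      FinitePlace.mk v (P 1) = FinitePlace.mk v (P 2))),
    Real.log (Ideal.absNorm v.asIdeal : ℝ)) / (Module.finrank ℚ K : ℝ)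

/-- The abc conjecture for the points of `T`: for every `ε > 0` there is a `C` with `h(P) < (1 + ε) rad(P) + C` for all
`P = (a : b : c)` in `T` with `a + b + c = 0` and `abc ≠ 0`. -/
def AbcFor (T : Set (Fin 3 → K)) : Prop :=
  ∀ ε : ℝ, 0 < ε → ∃ C : ℝ, ∀ P ∈ T, P 0 + P 1 + P 2 = 0 → P 0 * P 1 * P 2 ≠ 0 →
    height P < (1 + ε) * rad P + C

/-- the map `x ↦ ((1 - x²) / (1 + x²))²` -/
def phi (x : K) : K := ((1 - x ^ 2) / (1 + x ^ 2)) ^ 2

/-- the points `P = (x : 1 - x : -1)`, `x` in the image of the `k`-th iterate of `phi`, such that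
`|G(x)|_v ≥ exp (- η h(P))` and `|x|_v ≤ exp (η h(P))` for all infinite places `v` and all `v ∈ S` -/
def Away (G : K[X]) (S : Set (HeightOneSpectrum (𝓞 K))) (η : ℝ) (k : ℕ) : Set (Fin 3 → K) :=
  {P | ∃ x y : K, x = phi^[k] y ∧ P = ![x, 1 - x, -1] ∧
    (∀ w : InfinitePlace K, Real.exp (-(η * height P)) ≤ w (G.eval x) ∧ w x ≤ Real.exp (η * height P)) ∧
    ∀ v ∈ S, Real.exp (-(η * height P)) ≤ FinitePlace.mk v (G.eval x) ∧
      FinitePlace.mk v x ≤ Real.exp (η * height P)}

theorem dpos (K : Type) [Field K] [NumberField K] : 0 < (Module.finrank ℚ K : ℝ) := by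
  exact_mod_cast Module.finrank_pos

theorem eta_eq (P : Fin 3 → K) (η : ℝ) :
    η * height P = η / (Module.finrank ℚ K : ℝ) * Pool.Agent.W223.AK.H3 P := by
  have hd := dpos K
  change η * (Pool.Agent.W223.AK.H3 P / (Module.finrank ℚ K : ℝ)) = _
  ring

/-- **The abc conjecture over `K` is equivalent to the abc conjecture for the points in `Away G S η k`**, a set with at
most `C T ^ (2 d / 4 ^ k + η')` points of height `≤ log T`. -/
theorem result (K : Type) [Field K] [NumberField K] (G : K[X]) (hG : G ≠ 0)
    (S : Set (HeightOneSpectrum (𝓞 K))) (hS : S.Finite) (η : ℝ) (hη : 0 < η) (k : ℕ) :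
    (AbcFor (Away G S η k) ↔ AbcFor (Set.univ : Set (Fin 3 → K))) ∧
    ∀ η' : ℝ, 0 < η' → ∃ C : ℝ, ∀ T : ℝ, 1 ≤ T →
      {P : Fin 3 → K | P ∈ Away G S η k ∧ P 0 * P 1 * P 2 ≠ 0 ∧ height P ≤ Real.log T}.Finite ∧
      ({P : Fin 3 → K | P ∈ Away G S η k ∧ P 0 * P 1 * P 2 ≠ 0 ∧ height P ≤ Real.log T}.ncard : ℝ) ≤
        C * T ^ (2 * (Module.finrank ℚ K : ℝ) / 4 ^ k + η') := by
  have hd := dpos K
  have hmem : ∀ P : Fin 3 → K, P ∈ Pool.Agent.U221.AW.AwayU G S (η / (Module.finrank ℚ K : ℝ)) k ↔
      P ∈ Away G S η k := by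
    intro P
    constructor
    · rintro ⟨y, rfl, h1, h2⟩
      refine ⟨_, y, rfl, rfl, fun w => ?_, fun v hv => ?_⟩
      · rw [eta_eq]; exact h1 w
      · rw [eta_eq]; exact h2 v hv
    · rintro ⟨x, y, hx, rfl, h1, h2⟩
      refine ⟨y, ?_, fun w => ?_, fun v hv => ?_⟩
      · change _ = ![phi^[k] y, 1 - phi^[k] y, -1]
        rw [← hx]
      · have := h1 w
        rw [eta_eq, hx] at this
        exact this
      · have := h2 v hv
        rw [eta_eq, hx] at this
        exact this
  refine ⟨⟨fun h => ?_, fun h ε hε => ?_⟩, fun η' hη' => ?_⟩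
  · have key := Pool.Agent.U221.AW.away G hG S hS (div_pos hη hd) k
      (fun ε hε => by
        obtain ⟨C, hC⟩ := h ε hε
        refine ⟨(Module.finrank ℚ K : ℝ) * C, fun P hP hs hne => ?_⟩
        have h3 := hC P ((hmem P).1 hP) hs hne
        unfold height rad at h3
        rw [div_lt_iff₀ hd] at h3
        refine h3.trans_le (le_of_eq ?_)
        change ((1 + ε) * (Pool.Agent.U221.TK.R3' P / (Module.finrank ℚ K : ℝ)) + C) * (Module.finrank ℚ K : ℝ) = _
        field_simp)
    intro ε hε
    obtain ⟨C, hC⟩ := key ε hε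
    refine ⟨C / (Module.finrank ℚ K : ℝ), fun P _ hs hne => ?_⟩
    have h3 := hC P hs hne
    unfold height rad
    rw [div_lt_iff₀ hd]
    refine lt_of_lt_of_le h3 (le_of_eq ?_)
    change _ = ((1 + ε) * (Pool.Agent.U221.TK.R3' P / (Module.finrank ℚ K : ℝ)) + C / (Module.finrank ℚ K : ℝ)) *
      (Module.finrank ℚ K : ℝ)
    field_simp
  · obtain ⟨C, hC⟩ := h ε hε
    exact ⟨C, fun P _ => hC P (Set.mem_univ P)⟩
  · obtain ⟨C, hC⟩ := Pool.Agent.U221.AW.count (K := K) k hη'
    refine ⟨C, fun T hT => ?_⟩
    obtain ⟨g1, g2⟩ := hC T hT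
    have hsub : {P : Fin 3 → K | P ∈ Away G S η k ∧ P 0 * P 1 * P 2 ≠ 0 ∧ height P ≤ Real.log T} ⊆
        {P : Fin 3 → K | (∃ y, P = Pool.Agent.U221.AW.pnt (Pool.Agent.U221.AW.phi^[k] y)) ∧
          P 0 * P 1 * P 2 ≠ 0 ∧ Pool.Agent.W223.AK.H3 P / (Module.finrank ℚ K : ℝ) ≤ Real.log T} := by
      rintro P ⟨hP, h2, h3⟩
      obtain ⟨y, hy, -⟩ := (hmem P).2 hP
      exact ⟨⟨y, hy⟩, h2, h3⟩
    refine ⟨g1.subset hsub, le_trans ?_ g2⟩
    exact_mod_cast Set.ncard_le_ncard hsub g1

end Pool.Agent.Results.MP_a793bb_nt.AwayFromAlgebraicNumbers
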