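import Pool.Agent.U64.DP.Main

/-!
# The `ε` in the abc conjecture over a number field is needed near every point

`K` is a number field of degree `d`.  For `x ≠ 0, 1` in `K` let `P = (x : 1 - x : -1)`.  The truncated
counting function `N^(k)(P)`, `k ≥ 1`, counts a prime at which the coordinates differ with its
multiplicity, but at most `k` times; `N^(1) = rad`.

Theorem.  Let `y` be any element of `K`, `S` a finite set of primes and `δ > 0`.  There is a finite set
`T` of primes such that for all `k ≥ 1` and `c < 1/(2d)` there are infinitely many `T`-units `x ≠ 1`, of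
arbitrarily large height, with `‖x - y‖_v < δ` for all `v ∈ S` and `|x - y|_w < δ` for ALL infinite
places `w` and with

`h(P) ≥ N^(k)(P) + c log h(P)`,  `N^(k)(P) ≥ rad(P)`.

For `y ≠ 0, 1` one can take `x = ρ y` with positive rational numbers `ρ`; so `x` generates the field
`ℚ(y)`.

By weak approximation this says that in every nonempty open subset of a product of finitely many
completions of `K` the inequality `h(P) ≤ rad(P) + C`, and even `h(P) ≤ N^(k)(P) + C` for arbitrarily
large truncation levels `k`, is false, and that the term `ε rad(P)` of the abc conjecture cannot be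
replaced by one smaller than `(1/(2d)) log h(P)` there.

The proof.  Let `𝔮` be an unramified prime of `K` of prime norm `q`, prime to everything.  With
`g₁ = 1 + q Q`, `g₂ = 1 + q Q g₁`, `Q` divisible by high powers of the primes below `S`, and integers
`A ≡ A' ≡ 1` modulo `Q` with `A y ≡ A'` modulo `𝔮`, the numbers `x = (A/A') g₁ ^ a₁ g₂ ^ a₂ y` are close
to `y` at `S`.  By lifting of exponents, `g₁ ^ a₀ (A/A') y ≡ 1` modulo `𝔮 ^ (m+1)` for some `a₀ < q ^ m`, and
the exponents can be changed by multiples of `q ^ m`; inhomogeneous Diophantine approximation of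
`log g₂ / log g₁` makes the archimedean size right with exponents `O(q ^ (2m))`, for infinitely many
`m`.  The prime `𝔮` then contributes at most `k log q` to `N^(k)(P)` and at least `(m+1) log q` to the
height (product formula for `1 - x`).
-/

set_option autoImplicit false

namespace Pool.Agent.Results.MP_a793bb_nt.DensePoints

open NumberField IsDedekindDomain

variable {K : Type} [Field K] [NumberField K]

/-- The height `h(P)` of the point `P` with coordinates `x`. -/
noncomputable def height (x : Fin 3 → K) : ℝ :=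
  (∑ w : InfinitePlace K, (w.mult : ℝ) * Real.log (max (w (x 0)) (max (w (x 1)) (w (x 2)))) +
    ∑ᶠ v : HeightOneSpectrum (𝓞 K), Real.log
      (max (FinitePlace.mk v (x 0)) (max (FinitePlace.mk v (x 1)) (FinitePlace.mk v (x 2))))) /
    (Module.finrank ℚ K : ℝ)

/-- The radical `rad(P)`: the sum of `log N(v) / d` over the primes `v` at which the valuations of the
coordinates are not all equal. -/
noncomputable def rad (x : Fin 3 → K) : ℝ :=
  (∑ᶠ (v : HeightOneSpectrum (𝓞 K)) (_ : ¬ (FinitePlace.mk v (x 0) = FinitePlace.mk v (x 1) ∧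
        FinitePlace.mk v (x 1) = FinitePlace.mk v (x 2))),
    Real.log (Ideal.absNorm v.asIdeal : ℝ)) / (Module.finrank ℚ K : ℝ)

/-- The counting function truncated at level `k`: `1/d` times the sum over the primes `v` of
`min (k, e_v) log N(v)`, where `e_v log N(v)` is the logarithm of the quotient of the largest and the
smallest `v`-adic value of the coordinates. -/
noncomputable def count (k : ℕ) (x : Fin 3 → K) : ℝ :=
  (∑ᶠ v : HeightOneSpectrum (𝓞 K), min (k * Real.log (Ideal.absNorm v.asIdeal : ℝ))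
    (Real.log (max (FinitePlace.mk v (x 0)) (max (FinitePlace.mk v (x 1)) (FinitePlace.mk v (x 2))) /
      min (FinitePlace.mk v (x 0)) (min (FinitePlace.mk v (x 1)) (FinitePlace.mk v (x 2)))))) /
    (Module.finrank ℚ K : ℝ)

open Pool.Agent.U64.DP Pool.Agent.H691R3

theorem height_eq (x : K) : height ![x, 1 - x, -1] = dh x / (Module.finrank ℚ K : ℝ) := rfl

theorem count_eq (k : ℕ) (x : K) : count k ![x, 1 - x, -1] =
    (∑ᶠ v : HeightOneSpectrum (𝓞 K), cn k v x) / (Module.finrank ℚ K : ℝ) := rfl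

theorem rad_eq (x : K) : rad ![x, 1 - x, -1] = (∑ᶠ (v : HeightOneSpectrum (𝓞 K))
    (_ : ¬ (fv v x = fv v (1 - x) ∧ fv v (1 - x) = fv v (-1))), Real.log (Nv v)) /
    (Module.finrank ℚ K : ℝ) := rfl

/-- The main case `y ≠ 0, 1`, one point of large height. -/
theorem exists_point {y : K} (hy0 : y ≠ 0) (hy1 : y ≠ 1) (S : Finset (HeightOneSpectrum (𝓞 K)))
    {δ : ℝ} (hδ : 0 < δ) :
    ∃ T : Finset (HeightOneSpectrum (𝓞 K)), ∀ (k : ℕ), 1 ≤ k → ∀ c : ℝ,
      c < 1 / (2 * (Module.finrank ℚ K : ℝ)) → ∀ B : ℝ, ∃ (x : K) (ρ : ℚ), 0 < ρ ∧ x = (ρ : K) * y ∧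
        x ≠ 0 ∧ x ≠ 1 ∧ (∀ v, v ∉ T → FinitePlace.mk v x = 1) ∧
        (∀ v ∈ S, FinitePlace.mk v (x - y) < δ) ∧ (∀ w : InfinitePlace K, w (x - y) < δ) ∧
        B ≤ height ![x, 1 - x, -1] ∧ rad ![x, 1 - x, -1] ≤ count k ![x, 1 - x, -1] ∧
        count k ![x, 1 - x, -1] + c * Real.log (height ![x, 1 - x, -1]) ≤
          height ![x, 1 - x, -1] := by
  classical
  obtain ⟨T, v₀, q, C, hv₀, hg, hC, h⟩ := construct hy0 hy1 S hδ
  refine ⟨T, fun k hk c hc B => ?_⟩
  set d : ℝ := (Module.finrank ℚ K : ℝ) with hd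
  have hd1 : 1 ≤ d := by
    have : 1 ≤ Module.finrank ℚ K := Module.finrank_pos
    rw [hd]; exact_mod_cast this
  have hd0 : 0 < d := by linarith
  -- a positive constant
  set c' : ℝ := max c 0 with hc'
  have hc'0 : 0 ≤ c' := le_max_right _ _
  have hc'1 : c' < 1 / (2 * d) := max_lt hc (by positivity)
  have hlq : 0 < Real.log q := Real.log_pos (by exact_mod_cast hg.prime.one_lt)
  set E : ℝ := (k : ℝ) * Real.log q + k * ∑ v ∈ T, Real.log (Nv v) with hE
  have hgap : 0 < 1 - 2 * c' * d := by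
    rw [lt_div_iff₀ (by positivity)] at hc'1
    linarith
  -- `m` is large
  have h1 : ∀ᶠ m : ℕ in Filter.atTop, d * max B 1 + E ≤ (m : ℝ) * Real.log q :=
    (tendsto_natCast_atTop_atTop.atTop_mul_const hlq).eventually_ge_atTop _
  have h2 : ∀ᶠ m : ℕ in Filter.atTop, c' * d * Real.log C + E ≤
      (m : ℝ) * ((1 - 2 * c' * d) * Real.log q) :=
    (tendsto_natCast_atTop_atTop.atTop_mul_const (mul_pos hgap hlq)).eventually_ge_atTop _
  obtain ⟨m₀, hm₀⟩ := Filter.eventually_atTop.1 (h1.and h2)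
  obtain ⟨m, ρ, hm, hρ0, hx0, hx1, hT, hS, hw, hcong, hht⟩ := h m₀
  obtain ⟨e1, e2⟩ := hm₀ m hm
  have hNv : Nv v₀ = q := by unfold Nv; rw [hg.norm]
  have hge := height_ge hx0 hx1 k T hT v₀ hv₀ (m + 1) hcong
  rw [hNv] at hge
  push_cast at hge
  have hge' : ∑ᶠ v : HeightOneSpectrum (𝓞 K), cn k v ((ρ : K) * y) + m * Real.log q - E ≤
      dh ((ρ : K) * y) := by
    unfold dh
    refine le_trans ?_ hge
    rw [hE]
    nlinarith
  have hcn : 0 ≤ ∑ᶠ v : HeightOneSpectrum (𝓞 K), cn k v ((ρ : K) * y) :=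
    finsum_nonneg fun v => cn_nonneg k v hx0 hx1
  have hbig : d * max B 1 ≤ dh ((ρ : K) * y) := by linarith
  have hB1 : 1 ≤ dh ((ρ : K) * y) / d := by
    rw [le_div_iff₀ hd0, one_mul]
    have : d * 1 ≤ d * max B 1 := mul_le_mul_of_nonneg_left (le_max_right _ _) hd0.le
    linarith
  refine ⟨(ρ : K) * y, ρ, hρ0, rfl, hx0, hx1, hT, hS, hw, ?_, ?_, ?_⟩
  · rw [height_eq, le_div_iff₀ hd0]
    have : d * B ≤ d * max B 1 := mul_le_mul_of_nonneg_left (le_max_left _ _) hd0.le
    linarith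
  · rw [rad_eq, count_eq]
    exact div_le_div_of_nonneg_right (rad_le hx0 hx1 hk) hd0.le
  · rw [height_eq, count_eq]
    have hlog : Real.log (dh ((ρ : K) * y) / d) ≤ Real.log C + 2 * m * Real.log q := by
      have hle : dh ((ρ : K) * y) / d ≤ C * (q : ℝ) ^ (2 * m) := by
        rw [div_le_iff₀ hd0]
        have h3 : 0 ≤ C * (q : ℝ) ^ (2 * m) := by positivity
        nlinarith
      have h4 := Real.log_le_log (by linarith) hle
      have hq0 : (0 : ℝ) < q := by exact_mod_cast hg.prime.pos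
      rw [Real.log_mul hC.ne' (by positivity), Real.log_pow] at h4
      push_cast at h4
      exact h4
    have hlog0 : 0 ≤ Real.log (dh ((ρ : K) * y) / d) := Real.log_nonneg hB1
    have h5 : c * Real.log (dh ((ρ : K) * y) / d) ≤ c' * (Real.log C + 2 * m * Real.log q) :=
      (mul_le_mul_of_nonneg_right (le_max_left c 0) hlog0).trans
        (mul_le_mul_of_nonneg_left hlog hc'0)
    have h6 : d * (c' * (Real.log C + 2 * m * Real.log q)) ≤ m * Real.log q - E := by nlinarith
    have h7 : d * (c * Real.log (dh ((ρ : K) * y) / d)) ≤ m * Real.log q - E :=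
      (mul_le_mul_of_nonneg_left h5 hd0.le).trans h6
    rw [div_add' _ _ _ hd0.ne', div_le_div_iff_of_pos_right hd0]
    linarith

/-- a rational number `η` with `0 < η < 1` which is small at finitely many places -/
theorem exists_small (S : Finset (HeightOneSpectrum (𝓞 K))) {δ : ℝ} (hδ : 0 < δ) :
    ∃ η : ℚ, 0 < η ∧ η < 1 ∧ (η : ℝ) < δ ∧ ∀ v ∈ S, FinitePlace.mk v (η : K) < δ := by
  set δ' : ℝ := min (1 / 2) δ with hδ'
  have h0 : 0 < δ' := lt_min (by norm_num) hδ
  obtain ⟨Q, hQ1, hQ2, hQ⟩ := exists_Q S h0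
  have hQr : (1 : ℝ) ≤ Q := by exact_mod_cast hQ1
  have hQpos : (0 : ℝ) < Q := by linarith
  have hreal : ((Q : ℝ) / (1 + Q ^ 2)) < δ' := by
    rw [div_lt_iff₀ (by positivity)]
    rw [div_lt_iff₀ h0] at hQ2
    nlinarith
  refine ⟨(Q : ℚ) / (1 + Q ^ 2), by positivity, ?_, ?_, fun v hv => ?_⟩
  · have : (((Q : ℚ) / (1 + Q ^ 2) : ℚ) : ℝ) < ((1 : ℚ) : ℝ) := by
      push_cast
      exact hreal.trans_le ((min_le_left _ _).trans (by norm_num))
    exact_mod_cast this
  · push_cast
    exact hreal.trans_le (min_le_right _ _)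
  · have hQv := hQ v hv
    have h1 : fv v (Q : K) < 1 := hQv.trans_le ((min_le_left _ _).trans (by norm_num))
    have h2 : fv v (1 + (Q : K) ^ 2) = 1 := by
      refine eq_one_of_near (fv_na v) ?_
      rw [add_sub_cancel_left, map_pow]
      exact pow_lt_one₀ ((fv v).nonneg _) h1 (by norm_num)
    have e : FinitePlace.mk v (((Q : ℚ) / (1 + Q ^ 2) : ℚ) : K) =
        fv v ((((Q : ℚ) / (1 + Q ^ 2) : ℚ)) : K) := rfl
    rw [e]
    push_cast
    rw [map_div₀, h2, div_one]
    exact hQv.trans_le (min_le_right _ _)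

/-- **Theorem.** Let `K` be a number field of degree `d`, `y ∈ K`, `S` a finite set of primes of `K` and
`δ > 0`. There is a finite set `T` of primes such that for all `k ≥ 1`, all `c < 1/(2d)` and all `B`
there are infinitely many `x ∈ K`, `x ≠ 0, 1`, with the following properties, `P = (x : 1 - x : -1)`:
`x` is a unit outside `T`; `‖x - y‖_v < δ` for `v ∈ S` and `|x - y|_w < δ` for all infinite places
`w`; `h(P) ≥ B`; `rad(P) ≤ N^(k)(P)` and `N^(k)(P) + c log h(P) ≤ h(P)`; if `y ≠ 0, 1`, then `x` is a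
positive rational multiple of `y`. -/
theorem result : ∀ (K : Type) [Field K] [NumberField K] (y : K)
    (S : Set (HeightOneSpectrum (𝓞 K))), S.Finite → ∀ δ : ℝ, 0 < δ →
    ∃ T : Set (HeightOneSpectrum (𝓞 K)), T.Finite ∧ ∀ k : ℕ, 1 ≤ k → ∀ c : ℝ,
      c < 1 / (2 * (Module.finrank ℚ K : ℝ)) → ∀ B : ℝ,
        {x : K | x ≠ 0 ∧ x ≠ 1 ∧ (∀ v, v ∉ T → FinitePlace.mk v x = 1) ∧
          (∀ v ∈ S, FinitePlace.mk v (x - y) < δ) ∧ (∀ w : InfinitePlace K, w (x - y) < δ) ∧
          B ≤ height ![x, 1 - x, -1] ∧ rad ![x, 1 - x, -1] ≤ count k ![x, 1 - x, -1] ∧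
          count k ![x, 1 - x, -1] + c * Real.log (height ![x, 1 - x, -1]) ≤
            height ![x, 1 - x, -1] ∧
          (y ≠ 0 → y ≠ 1 → ∃ ρ : ℚ, 0 < ρ ∧ x = (ρ : K) * y)}.Infinite := by
  intro K _ _ y S hS δ hδ
  classical
  -- a point `y'` close to `y`, different from `0` and `1`
  obtain ⟨y', hy'0, hy'1, hy'S, hy'w, hy'⟩ : ∃ y' : K, y' ≠ 0 ∧ y' ≠ 1 ∧
      (∀ v ∈ hS.toFinset, fv v (y' - y) < δ) ∧ (∀ w : InfinitePlace K, w (y' - y) < δ / 2) ∧
      (y ≠ 0 → y ≠ 1 → y' = y) := by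
    by_cases hy : y ≠ 0 ∧ y ≠ 1
    · refine ⟨y, hy.1, hy.2, fun v _ => ?_, fun w => ?_, fun _ _ => rfl⟩
      · rw [sub_self, map_zero]; exact hδ
      · rw [sub_self, map_zero]; exact half_pos hδ
    · obtain ⟨η, h1, h2, h3, h4⟩ := exists_small (K := K) hS.toFinset (half_pos hδ)
      have h1K : (η : K) ≠ 0 := by exact_mod_cast h1.ne'
      have h2K : (η : K) ≠ 1 := by exact_mod_cast h2.ne
      have h3K : (η : K) + 1 ≠ 0 := by
        have : (η : ℚ) + 1 ≠ 0 := by linarith
        exact_mod_cast this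
      have hcase : y = 0 ∨ y = 1 := by
        by_contra hcon
        push Not at hcon
        exact hy hcon
      refine ⟨y + η, ?_, ?_, fun v hv => ?_, fun w => ?_, fun ha hb => absurd ⟨ha, hb⟩ hy⟩
      · rcases hcase with rfl | rfl
        · rwa [zero_add]
        · rwa [add_comm]
      · rcases hcase with rfl | rfl
        · rwa [zero_add]
        · intro h
          exact h1K (by simpa using h)
      · rw [add_sub_cancel_left]
        exact (h4 v hv).trans (half_lt_self hδ)
      · rw [add_sub_cancel_left, w_ratCast, abs_of_pos (by exact_mod_cast h1)]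
        exact h3
  obtain ⟨T, hT⟩ := exists_point hy'0 hy'1 hS.toFinset (half_pos hδ)
  refine ⟨(T : Set (HeightOneSpectrum (𝓞 K))), T.finite_toSet, fun k hk c hc B => ?_⟩
  -- points of arbitrarily large height
  have key : ∀ B' : ℝ, ∃ x : K, x ∈ {x : K | x ≠ 0 ∧ x ≠ 1 ∧ (∀ v, v ∉ (T : Set _) →
        FinitePlace.mk v x = 1) ∧
          (∀ v ∈ S, FinitePlace.mk v (x - y) < δ) ∧ (∀ w : InfinitePlace K, w (x - y) < δ) ∧
          B ≤ height ![x, 1 - x, -1] ∧ rad ![x, 1 - x, -1] ≤ count k ![x, 1 - x, -1] ∧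
          count k ![x, 1 - x, -1] + c * Real.log (height ![x, 1 - x, -1]) ≤
            height ![x, 1 - x, -1] ∧
          (y ≠ 0 → y ≠ 1 → ∃ ρ : ℚ, 0 < ρ ∧ x = (ρ : K) * y)} ∧ B' < height ![x, 1 - x, -1] := by
    intro B'
    obtain ⟨x, ρ, h1, h2, h3, h4, h5, h6, h7, h8, h9, h10⟩ := hT k hk c hc (max B (B' + 1))
    refine ⟨x, ⟨h3, h4, h5, fun v hv => ?_, fun w => ?_, (le_max_left _ _).trans h8, h9, h10,
      fun ha hb => ⟨ρ, h1, by rw [h2, hy' ha hb]⟩⟩, ?_⟩
    · have hvS : v ∈ hS.toFinset := by rwa [Set.Finite.mem_toFinset]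
      have e : x - y = (x - y') + (y' - y) := by ring
      rw [e]
      exact (fv_na v _ _).trans_lt (max_lt ((h6 v hvS).trans (half_lt_self hδ)) (hy'S v hvS))
    · have e : x - y = (x - y') + (y' - y) := by ring
      have h11 : w (x - y) ≤ w (x - y') + w (y' - y) := by
        rw [e, ← w.norm_embedding_eq, ← w.norm_embedding_eq, ← w.norm_embedding_eq, map_add]
        exact norm_add_le _ _
      linarith [h7 w, hy'w w]
    · have := (le_max_right B (B' + 1)).trans h8
      linarith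
  intro hfin
  obtain ⟨B', hB'⟩ := (hfin.image (fun x : K => height ![x, 1 - x, -1])).bddAbove
  obtain ⟨x, hx, hxB⟩ := key B'
  exact absurd (hB' (Set.mem_image_of_mem _ hx)) (not_le.2 hxB)

end Pool.Agent.Results.MP_a793bb_nt.DensePoints
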