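import Pool.Agent.U221.TK.Final

/-!
# The abc conjecture over a number field is a statement about thin sets of points close to a cusp

Let `K` be a number field of degree `d`. The points `P = (a : b : c)` with `a + b + c = 0`, `abc ≠ 0` are the points of
the projective line without the cusps `0`, `1`, `∞` (`x = - a / c`). Let `F = A / B` be a rational function over `K` of
degree `n` such that all the zeros of `A B (A - B)` different from `0` and `1` are zeros of a polynomial of degree
`< n`. By the formula of Riemann and Hurwitz this means that `F` is unramified outside of the cusps and maps the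
cusps to cusps. Examples: `x ^ n` for every `n` (`isBelyi_pow`), `4 x / (1 + x) ^ 2`, and their compositions.

Let `S` be any finite set of primes of `K`, let `δ > 0`, and let the `Y i` be positive numbers which tend to infinity
with `Y (i + 1) ≤ r Y i`. Consider only the points `P = (A(x) : B(x) - A(x) : - B(x))`, `x ∈ K`, with
`|x|_v ≤ δ` **for all infinite places `v` and all `v ∈ S` at once**, and with height in one of the intervals
`[Y i, (1 + δ) Y i]`: so `- a / c = F(x)` is in the image of `F`, and it is close to the single cusp `F(0)` at all the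
given places (all the corresponding Frey curves have multiplicative reduction of the same kind there).

**Theorem.** The abc conjecture over `K` (for all points) is equivalent to the abc conjecture for these points. For every
`η > 0` their number up to the height `log T` is at most `C T ^ (2 d / n + η)`, while the number of all points is of the
order `T ^ (2 d)`.

Proof (`Pool/Agent/U221/TK`). If `F` is such a map of degree `n`, the height of `F(x)` is `n h(x) + O(1)`, and the
radical grows at most by `(n - 1) h(x) + O(1)` (the sum formula for the value of the polynomial of degree `< n`). So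
the inequality at the image implies the inequality at the point. The semigroup of these maps acts on the points, and
it moves every point close to the cusps at finitely many places at once: a single infinite place needs one of three
words in `1 - x`, `x ^ 2` and `x ^ m` (if `|x|` and `|1 - x|` are close to `1`, `|1 - x ^ 2|` is not), a finite place a
power of `x`, and the places are treated one after the other, as all the maps preserve closeness to the cusps. The map
`4 w / (1 + w) ^ 2`, `w = 4 x (1 - x)`, sends the three cusps to `0`. A power `x ^ m` moves the height into one of the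
intervals, and one applies `F`.

The theorem is proved for `K = ℚ` (only the infinite place and the maps of dihedral type) in
`MP_7aad9f_nt.ThinSetDecides`.
-/

set_option autoImplicit false

open NumberField IsDedekindDomain Polynomial Filter

namespace Pool.Agent.Results.MP_a793bb_nt.ThinSetDecides

variable {K : Type} [Field K] [NumberField K]

/-- the height `h(P)` of the point with coordinates `P` -/
noncomputable def height (P : Fin 3 → K) : ℝ :=
  (∑ w : InfinitePlace K, (w.mult : ℝ) * Real.log (max (w (P 0)) (max (w (P 1)) (w (P 2)))) +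
    ∑ᶠ v : HeightOneSpectrum (𝓞 K), Real.log
      (max (FinitePlace.mk v (P 0)) (max (FinitePlace.mk v (P 1)) (FinitePlace.mk v (P 2))))) /
    (Module.finrank ℚ K : ℝ)

/-- the radical `rad(P)`: the sum of `log N(v) / d` over the primes at which the valuations of the coordinates are
not all equal -/
noncomputable def rad (P : Fin 3 → K) : ℝ :=
  (∑ᶠ (v : HeightOneSpectrum (𝓞 K)) (_ : ¬ (FinitePlace.mk v (P 0) = FinitePlace.mk v (P 1) ∧
      FinitePlace.mk v (P 1) = FinitePlace.mk v (P 2))),
    Real.log (Ideal.absNorm v.asIdeal : ℝ)) / (Module.finrank ℚ K : ℝ)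

/-- The abc conjecture for the points of `T`: for every `ε > 0` there is a `C` with `h(P) < (1 + ε) rad(P) + C` for all
`P = (a : b : c)` in `T` with `a + b + c = 0` and `abc ≠ 0`. -/
def AbcFor (T : Set (Fin 3 → K)) : Prop :=
  ∀ ε : ℝ, 0 < ε → ∃ C : ℝ, ∀ P ∈ T, P 0 + P 1 + P 2 = 0 → P 0 * P 1 * P 2 ≠ 0 →
    height P < (1 + ε) * rad P + C

/-- `A / B` is a rational function of degree `n`, and the zeros of `A B (A - B)` are `0`, `1` and zeros of a polynomial
`G` of degree smaller than `n`. -/
structure IsBelyi (A B : K[X]) (n : ℕ) : Prop where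
  /-- the degree is positive -/
  one_le : 1 ≤ n
  /-- the fraction is reduced -/
  coprime : IsCoprime A B
  /-- the degree -/
  degree : max A.natDegree B.natDegree = n
  /-- the points over the cusps -/
  zeros : ∃ (G : K[X]) (k : ℕ), G ≠ 0 ∧ G.natDegree < n ∧ A * B * (A - B) ∣ (X * (X - 1) * G) ^ k

/-- the points `(A(x) : B(x) - A(x) : - B(x))` with `|x|_v ≤ δ` for all infinite places and all `v ∈ S`, whose height is in
one of the intervals `[Y i, (1 + δ) Y i]` -/
def Thin (A B : K[X]) (S : Set (HeightOneSpectrum (𝓞 K))) (δ : ℝ) (Y : ℕ → ℝ) : Set (Fin 3 → K) :=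
  {P | ∃ x : K, P = ![A.eval x, B.eval x - A.eval x, -B.eval x] ∧ (∀ w : InfinitePlace K, w x ≤ δ) ∧
    (∀ v ∈ S, FinitePlace.mk v x ≤ δ) ∧ ∃ i, Y i ≤ height P ∧ height P ≤ (1 + δ) * Y i}

theorem belyi_of {A B : K[X]} {n : ℕ} (h : IsBelyi A B n) : Pool.Agent.U221.TK.Belyi A B n := by
  have hd := h.degree
  obtain ⟨G, k, h1, h2, h3⟩ := h.zeros
  exact ⟨h.one_le, h.coprime, by omega, by omega, by omega, G, k, h1, h2, h3⟩

/-- the maps `x ^ n` -/
theorem isBelyi_pow {n : ℕ} (hn : 1 ≤ n) : IsBelyi (X ^ n : K[X]) 1 n := by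
  obtain ⟨G, k, h1, h2, h3⟩ := (Pool.Agent.U221.TK.belyi_pow (K := K) hn).zeros
  exact ⟨hn, isCoprime_one_right, by rw [natDegree_X_pow, natDegree_one]; omega, G, k, h1, h2, h3⟩

theorem dpos (K : Type) [Field K] [NumberField K] : 0 < (Module.finrank ℚ K : ℝ) := by
  exact_mod_cast Module.finrank_pos

/-- **The abc conjecture over `K` is equivalent to the abc conjecture for the points in `Thin A B S δ Y`**, a set with at
most `C T ^ (2 d / n + η)` points of height `≤ log T`. -/
theorem result (K : Type) [Field K] [NumberField K] (A B : K[X]) (n : ℕ) (hF : IsBelyi A B n)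
    (S : Set (HeightOneSpectrum (𝓞 K))) (hS : S.Finite) (δ r : ℝ) (hδ : 0 < δ) (Y : ℕ → ℝ) (hpos : ∀ i, 0 < Y i)
    (hYt : Tendsto Y atTop atTop) (hYr : ∀ i, Y (i + 1) ≤ r * Y i) :
    (AbcFor (Thin A B S δ Y) ↔ AbcFor (Set.univ : Set (Fin 3 → K))) ∧
    ∀ η : ℝ, 0 < η → ∃ C : ℝ, ∀ T : ℝ, 1 ≤ T →
      {P : Fin 3 → K | P ∈ Thin A B S δ Y ∧ P 0 * P 1 * P 2 ≠ 0 ∧ height P ≤ Real.log T}.Finite ∧
      ({P : Fin 3 → K | P ∈ Thin A B S δ Y ∧ P 0 * P 1 * P 2 ≠ 0 ∧ height P ≤ Real.log T}.ncard : ℝ) ≤
        C * T ^ (2 * (Module.finrank ℚ K : ℝ) / n + η) := by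
  have hd := dpos K
  have hF' := belyi_of hF
  refine ⟨⟨fun h => ?_, fun h ε hε => ?_⟩, fun η hη => ?_⟩
  · have key := Pool.Agent.U221.TK.decides hF' S hS hδ (fun i => (Module.finrank ℚ K : ℝ) * Y i)
      (fun i => mul_pos hd (hpos i)) (hYt.const_mul_atTop hd) r
      (fun i => by
        have := mul_le_mul_of_nonneg_left (hYr i) hd.le
        linarith)
      (fun ε hε => by
        obtain ⟨C, hC⟩ := h ε hε
        refine ⟨(Module.finrank ℚ K : ℝ) * C, fun P hP hs hne => ?_⟩
        obtain ⟨x, hx, hw, hv, i, h1, h2⟩ := hP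
        have hmem : P ∈ Thin A B S δ Y := by
          refine ⟨x, hx, hw, hv, i, ?_, ?_⟩
          · unfold height
            rw [le_div_iff₀ hd, mul_comm]
            exact h1
          · unfold height
            rw [div_le_iff₀ hd]
            refine h2.trans (le_of_eq ?_)
            ring
        have h3 := hC P hmem hs hne
        unfold height rad at h3
        rw [div_lt_iff₀ hd] at h3
        refine h3.trans_le (le_of_eq ?_)
        change ((1 + ε) * (Pool.Agent.U221.TK.R3' P / (Module.finrank ℚ K : ℝ)) + C) * (Module.finrank ℚ K : ℝ) = _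
        field_simp)
    intro ε hε
    obtain ⟨C, hC⟩ := key ε hε
    refine ⟨C / (Module.finrank ℚ K : ℝ), fun P _ hs hne => ?_⟩
    have h3 := hC P hs hne
    unfold height rad
    rw [div_lt_iff₀ hd]
    refine lt_of_lt_of_le h3 (le_of_eq ?_)
    change _ = ((1 + ε) * (Pool.Agent.U221.TK.R3' P / (Module.finrank ℚ K : ℝ)) + C / (Module.finrank ℚ K : ℝ)) *
      (Module.finrank ℚ K : ℝ)
    field_simp
  · obtain ⟨C, hC⟩ := h ε hε
    exact ⟨C, fun P _ => hC P (Set.mem_univ P)⟩
  · obtain ⟨C, hC⟩ := Pool.Agent.U221.TK.count hF' hη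
    refine ⟨C, fun T hT => ?_⟩
    obtain ⟨g1, g2⟩ := hC T hT
    have hsub : {P : Fin 3 → K | P ∈ Thin A B S δ Y ∧ P 0 * P 1 * P 2 ≠ 0 ∧ height P ≤ Real.log T} ⊆
        {P : Fin 3 → K | (∃ x, P = Pool.Agent.U221.TK.img A B x) ∧ P 0 * P 1 * P 2 ≠ 0 ∧
          Pool.Agent.W223.AK.H3 P / (Module.finrank ℚ K : ℝ) ≤ Real.log T} := by
      rintro P ⟨⟨x, hx, -⟩, h2, h3⟩
      exact ⟨⟨x, hx⟩, h2, h3⟩
    refine ⟨g1.subset hsub, le_trans ?_ g2⟩
    exact_mod_cast Set.ncard_le_ncard hsub g1

end Pool.Agent.Results.MP_a793bb_nt.ThinSetDecides
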